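import Mathlib
import Pool.Agent.VM.Stmts

/-!
# Module LMB of squad VMV: Hölder's inequality in the bilinear inequality
-/

set_option autoImplicit false

namespace Pool.Agent.VM.H55

open Pool.Agent.VM
open Pool.Agent.Helper69_Weyl (ee)

theorem av_nonneg (q l : ℕ) (Φ : (Fin l → ℤ) → ℝ) (h : ∀ ζ, 0 ≤ Φ ζ) : 0 ≤ Av q l Φ := by
  unfold Av
  exact div_nonneg (Finset.sum_nonneg fun ζ _ => h _) (pow_nonneg (Nat.cast_nonneg q) l)

theorem mom_nonneg (q : ℕ) {l : ℕ} (E : Fin l → ℤ → ℤ) (r : ℕ) (s : Finset ℤ) (w : ℤ → ℂ) :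
    0 ≤ mom q E r s w :=
  av_nonneg _ _ _ fun _ => pow_nonneg (norm_nonneg _) _

theorem sq_nonneg' (q : ℕ) {l : ℕ} (E : Fin l → ℤ → ℤ) (r m : ℕ) (s : Finset ℤ) (w : ℤ → ℂ) :
    0 ≤ Sq q E r m s w :=
  Finset.sum_nonneg fun _ _ => Real.rpow_nonneg (mom_nonneg _ _ _ _ _) _

/-- `2 tri k = k (k + 1)` -/
theorem two_tri (k : ℕ) : 2 * tri k = k * (k + 1) := by
  unfold tri
  exact Nat.mul_div_cancel' (Nat.even_mul_succ_self k).two_dvd

theorem tri_mono {k l : ℕ} (h : l ≤ k) : tri l ≤ tri k := by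
  have h1 := two_tri k
  have h2 := two_tri l
  have h3 : l * (l + 1) ≤ k * (k + 1) := Nat.mul_le_mul h (by omega)
  omega

theorem tri_cast (k : ℕ) : (tri k : ℝ) = (k : ℝ) * ((k : ℝ) + 1) / 2 := by
  have h : ((2 * tri k : ℕ) : ℝ) = ((k * (k + 1) : ℕ) : ℝ) := by rw [two_tri]
  push_cast at h
  linarith

/-- the combination of powers -/
theorem comb (f g : ℝ) (hf : 0 ≤ f) (hg : 0 ≤ g) (A B C D E F : ℕ) (x : ℝ) (hx0 : 0 ≤ x)
    (hx1 : x ≤ 1) (h1 : x * A + (1 - x) * D = E) (h2 : x * B + (1 - x) * C = F) :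
    (f ^ A * g ^ B) ^ x * (g ^ C * f ^ D) ^ (1 - x) = f ^ E * g ^ F := by
  have hx' : 0 ≤ 1 - x := by linarith
  rw [Real.mul_rpow (pow_nonneg hf _) (pow_nonneg hg _),
    Real.mul_rpow (pow_nonneg hg _) (pow_nonneg hf _)]
  rw [← Real.rpow_natCast_mul hf, ← Real.rpow_natCast_mul hg, ← Real.rpow_natCast_mul hg,
    ← Real.rpow_natCast_mul hf]
  have e1 : f ^ E = f ^ ((A : ℝ) * x) * f ^ ((D : ℝ) * (1 - x)) := by
    rw [← Real.rpow_add_of_nonneg hf (mul_nonneg (Nat.cast_nonneg _) hx0)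
      (mul_nonneg (Nat.cast_nonneg _) hx'), ← Real.rpow_natCast]
    congr 1
    rw [← h1]; ring
  have e2 : g ^ F = g ^ ((B : ℝ) * x) * g ^ ((C : ℝ) * (1 - x)) := by
    rw [← Real.rpow_add_of_nonneg hg (mul_nonneg (Nat.cast_nonneg _) hx0)
      (mul_nonneg (Nat.cast_nonneg _) hx'), ← Real.rpow_natCast]
    congr 1
    rw [← h2]; ring
  rw [e1, e2]
  ring

theorem lmb (p k l : ℕ) (hl : 1 ≤ l) (hlk : l < k) (ho2 : Ho2Stmt) : LmbStmt p k l := by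
  intro n a b B₁ B₂ hB₁ hB₂ h₁ h₂ c c' hc s s' w w' hs hs'
  set q := p ^ (k * n) with hq
  set S := Sq q (mc 0 k) (tri k) (p ^ n) s w with hS
  set S' := Sq q (mc 0 k) (tri k) (p ^ n) s' w' with hS'
  have hSn : 0 ≤ S := sq_nonneg' _ _ _ _ _ _
  have hS'n : 0 ≤ S' := sq_nonneg' _ _ _ _ _ _
  set x : ℝ := ((k : ℝ) - l) / ((k : ℝ) - l + 1) with hx
  have hkl : (0 : ℝ) < (k : ℝ) - l := by
    have : (l : ℝ) < (k : ℝ) := by exact_mod_cast hlk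
    linarith
  have hd : (0 : ℝ) < (k : ℝ) - l + 1 := by linarith
  have hx0 : 0 ≤ x := div_nonneg hkl.le hd.le
  have hx1' : 1 - x = 1 / ((k : ℝ) - l + 1) := by
    rw [hx]; field_simp; ring
  have hx1 : x ≤ 1 := by
    have : 0 ≤ 1 / ((k : ℝ) - l + 1) := by positivity
    linarith
  have hCn : 0 ≤ B₁ ^ x * B₂ ^ (1 / ((k : ℝ) - l + 1)) :=
    mul_nonneg (Real.rpow_nonneg hB₁ _) (Real.rpow_nonneg hB₂ _)
  rcases Nat.eq_zero_or_pos q with hq0 | hqpos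
  · have hk : 0 < k := by omega
    have : Av q k (fun ζ => ‖G q (mc 0 k) s w ζ‖ ^ (2 * tri l) *
        ‖G q (mc 0 k) s' w' ζ‖ ^ (2 * (tri k - tri l))) = 0 := by
      unfold Av
      rw [hq0]
      have : Nonempty (Fin k) := ⟨⟨0, hk⟩⟩
      have : IsEmpty (Fin k → Fin 0) := by
        refine ⟨fun f => ?_⟩
        exact (f ⟨0, hk⟩).elim0
      simp
    rw [this]
    exact mul_nonneg (mul_nonneg hCn (pow_nonneg hSn _)) (pow_nonneg hS'n _)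
  -- the exponents
  have hkc : (l : ℝ) + ((k : ℝ) - l) = k := by ring
  have hlm : ((l - 1 : ℕ) : ℝ) = (l : ℝ) - 1 := by
    rw [Nat.cast_sub hl]; simp
  have hkm : ((k - l : ℕ) : ℝ) = (k : ℝ) - l := by
    rw [Nat.cast_sub hlk.le]
  have t1 : ((tri k - tri (l - 1) : ℕ) : ℝ) = (tri k : ℝ) - tri (l - 1) :=
    Nat.cast_sub (tri_mono (by omega))
  have t2 : ((tri k - tri (k - l) : ℕ) : ℝ) = (tri k : ℝ) - tri (k - l) :=
    Nat.cast_sub (tri_mono (by omega))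
  have t3 : ((tri k - tri l : ℕ) : ℝ) = (tri k : ℝ) - tri l :=
    Nat.cast_sub (tri_mono (by omega))
  have id1 : x * (tri (l - 1) : ℝ) + (1 - x) * ((tri k - tri (k - l) : ℕ) : ℝ) = (tri l : ℝ) := by
    rw [t2, hx1', hx, tri_cast, tri_cast, tri_cast, tri_cast, hlm, hkm]
    field_simp
    ring
  have id2 : x * ((tri k - tri (l - 1) : ℕ) : ℝ) + (1 - x) * (tri (k - l) : ℝ) =
      ((tri k - tri l : ℕ) : ℝ) := by
    have : x * (tri k : ℝ) + (1 - x) * (tri k : ℝ) = tri k := by ring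
    rw [t1, t3]
    rw [t2] at id1
    linarith
  have key := ho2 q k (fun ζ => ‖G q (mc 0 k) s w ζ‖ ^ (2 * tri (l - 1)) *
      ‖G q (mc 0 k) s' w' ζ‖ ^ (2 * (tri k - tri (l - 1))))
    (fun ζ => ‖G q (mc 0 k) s' w' ζ‖ ^ (2 * tri (k - l)) *
      ‖G q (mc 0 k) s w ζ‖ ^ (2 * (tri k - tri (k - l)))) x hqpos hx0 hx1
    (fun ζ => mul_nonneg (pow_nonneg (norm_nonneg _) _) (pow_nonneg (norm_nonneg _) _))
    (fun ζ => mul_nonneg (pow_nonneg (norm_nonneg _) _) (pow_nonneg (norm_nonneg _) _))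
  have hfun : (fun ζ : Fin k → ℤ => ‖G q (mc 0 k) s w ζ‖ ^ (2 * tri l) *
        ‖G q (mc 0 k) s' w' ζ‖ ^ (2 * (tri k - tri l))) =
      (fun ζ => (‖G q (mc 0 k) s w ζ‖ ^ (2 * tri (l - 1)) *
      ‖G q (mc 0 k) s' w' ζ‖ ^ (2 * (tri k - tri (l - 1)))) ^ x *
      (‖G q (mc 0 k) s' w' ζ‖ ^ (2 * tri (k - l)) *
      ‖G q (mc 0 k) s w ζ‖ ^ (2 * (tri k - tri (k - l)))) ^ (1 - x)) := by
    funext ζ
    symm
    apply comb _ _ (norm_nonneg _) (norm_nonneg _) _ _ _ _ _ _ x hx0 hx1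
    · push_cast
      rw [← id1]; ring
    · push_cast
      rw [← id2]; ring
  have e₁ := h₁ c c' hc s s' w w' hs hs'
  have e₂ := h₂ c' c (fun h => hc h.symm) s' s w' w hs' hs
  rw [← hq, ← hS, ← hS'] at e₁ e₂
  rw [hfun]
  refine key.trans ?_
  have n1 : 0 ≤ Av q k (fun ζ => ‖G q (mc 0 k) s w ζ‖ ^ (2 * tri (l - 1)) *
      ‖G q (mc 0 k) s' w' ζ‖ ^ (2 * (tri k - tri (l - 1)))) :=
    av_nonneg _ _ _ fun ζ => mul_nonneg (pow_nonneg (norm_nonneg _) _) (pow_nonneg (norm_nonneg _) _)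
  have n2 : 0 ≤ Av q k (fun ζ => ‖G q (mc 0 k) s' w' ζ‖ ^ (2 * tri (k - l)) *
      ‖G q (mc 0 k) s w ζ‖ ^ (2 * (tri k - tri (k - l)))) :=
    av_nonneg _ _ _ fun ζ => mul_nonneg (pow_nonneg (norm_nonneg _) _) (pow_nonneg (norm_nonneg _) _)
  have hx' : 0 ≤ 1 - x := by linarith
  refine (mul_le_mul (Real.rpow_le_rpow n1 e₁ hx0) (Real.rpow_le_rpow n2 e₂ hx')
    (Real.rpow_nonneg n2 _) (Real.rpow_nonneg (n1.trans e₁) _)).trans (le_of_eq ?_)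
  have c1 := comb S S' hSn hS'n (tri (l - 1)) (tri k - tri (l - 1)) (tri (k - l))
    (tri k - tri (k - l)) (tri l) (tri k - tri l) x hx0 hx1 id1 id2
  rw [mul_assoc B₁, mul_assoc B₂, Real.mul_rpow hB₁ (mul_nonneg (pow_nonneg hSn _)
    (pow_nonneg hS'n _)), Real.mul_rpow hB₂ (mul_nonneg (pow_nonneg hS'n _) (pow_nonneg hSn _)),
    mul_assoc (B₁ ^ x * B₂ ^ (1 / ((k : ℝ) - l + 1))), ← c1, hx1']
  ring

end Pool.Agent.VM.H55
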