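import Mathlib
import Pool.Agent.VM.Stmts
import Pool.Agent.Helper55_VM.LMB

/-!
# Module LD1 of squad VMV: one step on the curve of high powers at units
-/

set_option autoImplicit false

namespace Pool.Agent.VM.H55

open Pool.Agent.VM
open Pool.Agent.Helper69_Weyl (ee ee_add ee_int norm_ee)

/-- the powers of `x - c` -/
def ec (l : ℕ) (c : ℤ) : Fin l → ℤ → ℤ := fun i x => (x - c) ^ ((i : ℕ) + 1)

/-- the matrix of divided derivatives at `c` -/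
def Lm (k l : ℕ) (c : ℤ) : (Fin l → ℤ) →+ (Fin l → ℤ) where
  toFun ζ i := ∑ j : Fin l, ζ j * ((Nat.choose (k - l + (j : ℕ) + 1) ((i : ℕ) + 1) : ℕ) : ℤ) *
        c ^ (k - l + (j : ℕ) + 1 - ((i : ℕ) + 1))
  map_zero' := by funext i; simp
  map_add' := by
    intro a b
    funext i
    simp only [Pi.add_apply, add_mul, Finset.sum_add_distrib]

theorem lm_apply (k l : ℕ) (c : ℤ) (ζ : Fin l → ℤ) (i : Fin l) :
    Lm k l c ζ i = ∑ j : Fin l, ζ j *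
      ((Nat.choose (k - l + (j : ℕ) + 1) ((i : ℕ) + 1) : ℕ) : ℤ) *
        c ^ (k - l + (j : ℕ) + 1 - ((i : ℕ) + 1)) := rfl

/-- the Taylor formula modulo `p ^ M` -/
theorem taylor (p l a₀ M N : ℕ) (c d : ℤ) (hd : ((p : ℤ) ^ a₀) ∣ d) (hM : M ≤ (l + 1) * a₀) :
    ((p : ℤ) ^ M) ∣ (d + c) ^ N - c ^ N -
      ∑ i : Fin l, ((Nat.choose N ((i : ℕ) + 1) : ℕ) : ℤ) * c ^ (N - ((i : ℕ) + 1)) *
        d ^ ((i : ℕ) + 1) := by
  have h1 : (d + c) ^ N = ∑ i ∈ Finset.range (l + 1 + N),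
      d ^ i * c ^ (N - i) * ((Nat.choose N i : ℕ) : ℤ) := by
    rw [add_pow]
    refine Finset.sum_subset ?_ ?_
    · intro i hi
      rw [Finset.mem_range] at hi ⊢
      omega
    · intro i _ hi
      rw [Finset.mem_range, not_lt] at hi
      rw [Nat.choose_eq_zero_of_lt (by omega)]
      simp
  rw [h1, Finset.sum_range_add, Finset.sum_range_succ', Fin.sum_univ_eq_sum_range
    (fun i => ((Nat.choose N (i + 1) : ℕ) : ℤ) * c ^ (N - (i + 1)) * d ^ (i + 1)) l]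
  have h2 : ∀ i, d ^ (i + 1) * c ^ (N - (i + 1)) * ((Nat.choose N (i + 1) : ℕ) : ℤ) =
      ((Nat.choose N (i + 1) : ℕ) : ℤ) * c ^ (N - (i + 1)) * d ^ (i + 1) := fun i => by ring
  simp only [h2]
  have h3 : ((p : ℤ) ^ M) ∣ ∑ i ∈ Finset.range N, d ^ (l + 1 + i) * c ^ (N - (l + 1 + i)) *
      ((Nat.choose N (l + 1 + i) : ℕ) : ℤ) := by
    refine Finset.dvd_sum fun i _ => ?_
    refine Dvd.dvd.mul_right (Dvd.dvd.mul_right ?_ _) _
    have h4 : ((p : ℤ) ^ a₀) ^ (l + 1) ∣ d ^ (l + 1) := pow_dvd_pow_of_dvd hd _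
    rw [pow_add]
    refine Dvd.dvd.mul_right (dvd_trans ?_ h4) _
    rw [← pow_mul]
    exact pow_dvd_pow _ (by rw [mul_comm]; exact hM)
  have h5 : (∑ i ∈ Finset.range l, ((Nat.choose N (i + 1) : ℕ) : ℤ) * c ^ (N - (i + 1)) *
      d ^ (i + 1) + d ^ 0 * c ^ (N - 0) * ((Nat.choose N 0 : ℕ) : ℤ) +
      ∑ i ∈ Finset.range N, d ^ (l + 1 + i) * c ^ (N - (l + 1 + i)) *
      ((Nat.choose N (l + 1 + i) : ℕ) : ℤ)) - c ^ N -
      ∑ i ∈ Finset.range l, ((Nat.choose N (i + 1) : ℕ) : ℤ) * c ^ (N - (i + 1)) *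
      d ^ (i + 1) = ∑ i ∈ Finset.range N, d ^ (l + 1 + i) * c ^ (N - (l + 1 + i)) *
      ((Nat.choose N (l + 1 + i) : ℕ) : ℤ) := by
    simp only [pow_zero, Nat.sub_zero, Nat.choose_zero_right, Nat.cast_one]
    ring
  rw [h5]
  exact h3

theorem dvd_of_incl {p a₀ : ℕ} {c : ℤ} {t : Finset ℤ} (ht : InCl (p ^ a₀) c t) {x : ℤ}
    (hx : x ∈ t) : ((p : ℤ) ^ a₀) ∣ x - c := by
  have h := (ht x hx).symm.dvd
  simpa using h

/-- the exponential sum in the new coordinates -/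
theorem norm_G (p k l a₀ M : ℕ) (hp : 0 < p) (c : ℤ) (hM : M ≤ (l + 1) * a₀) (t : Finset ℤ)
    (ht : InCl (p ^ a₀) c t) (w : ℤ → ℂ) (ζ : Fin l → ℤ) :
    ‖G (p ^ M) (mc (k - l) l) t w ζ‖ = ‖G (p ^ M) (ec l c) t w (Lm k l c ζ)‖ := by
  have hq : (0 : ℝ) < ((p ^ M : ℕ) : ℝ) := by positivity
  set κ : ℤ := ∑ j : Fin l, ζ j * c ^ (k - l + (j : ℕ) + 1) with hκ
  have key : G (p ^ M) (mc (k - l) l) t w ζ =
      ee ((κ : ℝ) / ((p ^ M : ℕ) : ℝ)) * G (p ^ M) (ec l c) t w (Lm k l c ζ) := by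
    unfold G
    rw [Finset.mul_sum]
    refine Finset.sum_congr rfl fun x hx => ?_
    have hdv : ((p : ℤ) ^ M) ∣ (∑ j, ζ j * mc (k - l) l j x) - κ -
        ∑ i, Lm k l c ζ i * ec l c i x := by
      have e1 : (∑ j, ζ j * mc (k - l) l j x) - κ - ∑ i, Lm k l c ζ i * ec l c i x =
          ∑ j : Fin l, ζ j * (((x - c) + c) ^ (k - l + (j : ℕ) + 1) - c ^ (k - l + (j : ℕ) + 1) -
            ∑ i : Fin l, ((Nat.choose (k - l + (j : ℕ) + 1) ((i : ℕ) + 1) : ℕ) : ℤ) *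
              c ^ (k - l + (j : ℕ) + 1 - ((i : ℕ) + 1)) * (x - c) ^ ((i : ℕ) + 1)) := by
        have e2 : ∑ i, Lm k l c ζ i * ec l c i x = ∑ j : Fin l, ζ j *
            ∑ i : Fin l, ((Nat.choose (k - l + (j : ℕ) + 1) ((i : ℕ) + 1) : ℕ) : ℤ) *
              c ^ (k - l + (j : ℕ) + 1 - ((i : ℕ) + 1)) * (x - c) ^ ((i : ℕ) + 1) := by
          simp only [lm_apply, ec, Finset.sum_mul, Finset.mul_sum]
          rw [Finset.sum_comm]
          refine Finset.sum_congr rfl fun j _ => Finset.sum_congr rfl fun i _ => ?_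
          ring
        rw [e2, hκ, ← Finset.sum_sub_distrib, ← Finset.sum_sub_distrib]
        refine Finset.sum_congr rfl fun j _ => ?_
        simp only [mc, sub_add_cancel]
        ring
      rw [e1]
      refine Finset.dvd_sum fun j _ => Dvd.dvd.mul_left ?_ _
      exact taylor p l a₀ M _ c (x - c) (dvd_of_incl ht hx) hM
    obtain ⟨z, hz⟩ := hdv
    have e3 : (((∑ j, ζ j * mc (k - l) l j x : ℤ)) : ℝ) / ((p ^ M : ℕ) : ℝ) =
        (κ : ℝ) / ((p ^ M : ℕ) : ℝ) + (((∑ i, Lm k l c ζ i * ec l c i x : ℤ) : ℝ) /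
          ((p ^ M : ℕ) : ℝ) + (z : ℝ)) := by
      have e4 : (∑ j, ζ j * mc (k - l) l j x : ℤ) =
          κ + ((∑ i, Lm k l c ζ i * ec l c i x) + (p : ℤ) ^ M * z) := by linarith
      rw [e4]
      field_simp
      push_cast
      ring
    rw [e3, ee_add, ee_add, ee_int]
    ring
  rw [key, norm_mul, norm_ee, one_mul]

theorem incl_cl {m n : ℕ} {c c' : ℤ} {s : Finset ℤ} (h : InCl m c s) : InCl m c (cl n c' s) :=
  fun x hx => h x (Finset.mem_filter.mp hx).1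

theorem mom_ec (p k l a₀ M : ℕ) (hp : p.Prime) (hk : k < p) (hlk : l ≤ k) (c : ℤ)
    (hc : ¬ (p : ℤ) ∣ c) (avb : AvbStmt) (gpr : GprStmt) (bij : BijStmt)
    (hM : M ≤ (l + 1) * a₀) (r : ℕ) (t : Finset ℤ) (ht : InCl (p ^ a₀) c t) (w : ℤ → ℂ) :
    mom (p ^ M) (mc (k - l) l) r t w = mom (p ^ M) (ec l c) r t w := by
  have hq : 0 < p ^ M := pow_pos hp.pos M
  unfold mom
  have h1 := avb (p ^ M) l (fun η => ‖G (p ^ M) (ec l c) t w η‖ ^ (2 * r)) (Lm k l c) hq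
    (fun ζ v => by
      show ‖G (p ^ M) (ec l c) t w (fun j => ζ j + ((p ^ M : ℕ) : ℤ) * v j)‖ ^ (2 * r) = _
      rw [gpr (p ^ M) l (ec l c) t w hq ζ v])
    (fun ζ h j => by
      have h2 := bij p k l M c hp hk hlk hc ζ (fun i => by
        have := h i
        rw [lm_apply] at this
        simpa using this) j
      simpa using h2)
  rw [← h1]
  unfold Av
  congr 1
  refine Finset.sum_congr rfl fun ζ _ => ?_
  beta_reduce
  rw [norm_G p k l a₀ M hp.pos c hM t ht w]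

/-- the new variable -/
def yy (p a₀ : ℕ) (c x : ℤ) : ℤ := (x - c) / (p : ℤ) ^ a₀

theorem yy_mul {p a₀ : ℕ} {c x : ℤ} (h : ((p : ℤ) ^ a₀) ∣ x - c) :
    (p : ℤ) ^ a₀ * yy p a₀ c x = x - c := Int.mul_ediv_cancel' h

theorem yy_inj {p a₀ : ℕ} {c : ℤ} {t : Finset ℤ} (ht : InCl (p ^ a₀) c t) :
    Set.InjOn (yy p a₀ c) (t : Set ℤ) := by
  intro x hx x' hx' h
  have h1 := yy_mul (dvd_of_incl ht hx)
  have h2 := yy_mul (dvd_of_incl ht hx')
  have h3 : yy p a₀ c x = yy p a₀ c x' := h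
  rw [h3] at h1
  linarith

theorem cl_image (p a₀ m : ℕ) (hp : 0 < p) (c c' : ℤ) (s : Finset ℤ) (hs : InCl (p ^ a₀) c s) :
    cl (p ^ m) c' (s.image (yy p a₀ c)) =
      (cl (p ^ (a₀ + m)) (c + (p : ℤ) ^ a₀ * c') s).image (yy p a₀ c) := by
  have hpz : (p : ℤ) ^ a₀ ≠ 0 := by positivity
  have hiff : ∀ x ∈ s, (yy p a₀ c x ≡ c' [ZMOD ((p ^ m : ℕ) : ℤ)] ↔
      x ≡ c + (p : ℤ) ^ a₀ * c' [ZMOD ((p ^ (a₀ + m) : ℕ) : ℤ)]) := by
    intro x hx
    have h1 := yy_mul (dvd_of_incl hs hx)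
    rw [Int.modEq_iff_dvd, Int.modEq_iff_dvd]
    have e : c + (p : ℤ) ^ a₀ * c' - x = (p : ℤ) ^ a₀ * (c' - yy p a₀ c x) := by
      rw [mul_sub, h1]; ring
    rw [e]
    push_cast
    rw [pow_add]
    exact (mul_dvd_mul_iff_left hpz).symm
  ext z
  unfold cl
  simp only [Finset.mem_filter, Finset.mem_image]
  constructor
  · rintro ⟨⟨x, hx, rfl⟩, h⟩
    exact ⟨x, ⟨hx, (hiff x hx).mp h⟩, rfl⟩
  · rintro ⟨x, ⟨hx, h⟩, rfl⟩
    exact ⟨⟨x, hx, rfl⟩, (hiff x hx).mpr h⟩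

/-- the local form of the exponential sum -/
theorem local_G (p l a₀ m M : ℕ) (hp : 0 < p) (c : ℤ) (hM : l * (a₀ + m) ≤ M) (t : Finset ℤ)
    (ht : InCl (p ^ a₀) c t) (w : ℤ → ℂ) (α ζ : Fin l → ℤ) :
    G (p ^ M) (ec l c) t w
      (fun i => α i + (p : ℤ) ^ (M - a₀ * ((i : ℕ) + 1) - l * m) * ζ i) =
    G (p ^ (l * m)) (mc 0 l) (t.image (yy p a₀ c))
      (fun z => w (c + (p : ℤ) ^ a₀ * z) *
        ee (((∑ i : Fin l, α i * ((p : ℤ) ^ a₀ * z) ^ ((i : ℕ) + 1) : ℤ) : ℝ) /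
          ((p ^ M : ℕ) : ℝ))) ζ := by
  unfold G
  rw [Finset.sum_image (yy_inj ht)]
  refine Finset.sum_congr rfl fun x hx => ?_
  have h1 := yy_mul (dvd_of_incl ht hx)
  have hx' : c + (p : ℤ) ^ a₀ * yy p a₀ c x = x := by rw [h1]; ring
  beta_reduce
  rw [hx', h1, mul_assoc, ← ee_add]
  congr 2
  have hpr : (0 : ℝ) < (p : ℝ) := by exact_mod_cast hp
  have e1 : (∑ j : Fin l, (α j + (p : ℤ) ^ (M - a₀ * ((j : ℕ) + 1) - l * m) * ζ j) * ec l c j x) =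
      ∑ j : Fin l, α j * (x - c) ^ ((j : ℕ) + 1) +
      (p : ℤ) ^ (M - l * m) * ∑ j : Fin l, ζ j * mc 0 l j (yy p a₀ c x) := by
    rw [Finset.mul_sum, ← Finset.sum_add_distrib]
    refine Finset.sum_congr rfl fun j _ => ?_
    unfold ec mc
    rw [add_mul]
    congr 1
    rw [← h1, mul_pow, ← pow_mul]
    have hj : a₀ * ((j : ℕ) + 1) + l * m ≤ M := by
      have h2 : a₀ * ((j : ℕ) + 1) ≤ a₀ * l := Nat.mul_le_mul_left _ j.2
      have h3 : l * (a₀ + m) = a₀ * l + l * m := by ring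
      omega
    have e2 : (p : ℤ) ^ (M - l * m) = (p : ℤ) ^ (M - a₀ * ((j : ℕ) + 1) - l * m) *
        (p : ℤ) ^ (a₀ * ((j : ℕ) + 1)) := by
      rw [← pow_add]
      congr 1
      omega
    rw [e2]
    simp only [zero_add]
    ring
  rw [e1]
  have hlm : l * m ≤ M := by
    have h3 : l * (a₀ + m) = l * a₀ + l * m := by ring
    omega
  have e3 : ((p ^ M : ℕ) : ℝ) = (p : ℝ) ^ (M - l * m) * ((p ^ (l * m) : ℕ) : ℝ) := by
    push_cast
    rw [← pow_add]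
    congr 1
    omega
  have hpos1 : (0 : ℝ) < (p : ℝ) ^ (M - l * m) := by positivity
  have hpos2 : (0 : ℝ) < ((p ^ (l * m) : ℕ) : ℝ) := by positivity
  push_cast [e3]
  rw [add_div]
  congr 1
  rw [mul_div_mul_left _ _ hpos1.ne']

theorem cl_congr (m : ℕ) (c c' : ℤ) (h : c ≡ c' [ZMOD (m : ℤ)]) (s : Finset ℤ) :
    cl m c s = cl m c' s := by
  unfold cl
  refine Finset.filter_congr fun x _ => ⟨fun h' => h'.trans h, fun h' => h'.trans h.symm⟩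

theorem ld1 (p k l : ℕ) (hp : p.Prime) (hk : k < p) (hl : 1 ≤ l) (hlk : l ≤ k) (avb : AvbStmt)
    (lgl : LglStmt) (gpr : GprStmt) (bij : BijStmt) : Ld1Stmt p k l := by
  intro m a₀ M c C hC hdec hc hM₁ hM₂ s w hs
  set r := tri l with hr
  have hr1 : 1 ≤ r := by
    have h2 := two_tri l
    have : 1 * 2 ≤ l * (l + 1) := Nat.mul_le_mul hl (by omega)
    omega
  have hq : 0 < p ^ M := pow_pos hp.pos M
  have hq' : 0 < p ^ (l * m) := pow_pos hp.pos _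
  -- reduction to the powers of `x - c`
  have hA : mom (p ^ M) (mc (k - l) l) r s w = mom (p ^ M) (ec l c) r s w :=
    mom_ec p k l a₀ M hp hk hlk c hc avb gpr bij hM₁ r s hs w
  have hB : Sq (p ^ M) (mc (k - l) l) r (p ^ (a₀ + m)) s w =
      Sq (p ^ M) (ec l c) r (p ^ (a₀ + m)) s w := by
    unfold Sq
    refine Finset.sum_congr rfl fun c'' _ => ?_
    rw [mom_ec p k l a₀ M hp hk hlk c hc avb gpr bij hM₁ r _ (incl_cl hs) w]
  rw [hA, hB]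
  -- local to global
  have key := lgl (p ^ M) (p ^ (l * m)) l l r C (Finset.range (p ^ m))
    (fun α => G (p ^ M) (ec l c) s w α)
    (fun i α => G (p ^ M) (ec l c) (cl (p ^ (a₀ + m)) (c + (p : ℤ) ^ a₀ * (i : ℤ)) s) w α)
    (fun _ => 1)
    (fun ζ i => (p : ℤ) ^ (M - a₀ * ((i : ℕ) + 1) - l * m) * ζ i)
    hq hq' hr1 hC (fun _ => zero_le_one)
    (fun ζ v => by
      show ‖G (p ^ M) (ec l c) s w (fun j => ζ j + ((p ^ M : ℕ) : ℤ) * v j)‖ = _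
      rw [gpr (p ^ M) l (ec l c) s w hq ζ v])
    (fun i ζ v => by
      show ‖G (p ^ M) (ec l c) _ w (fun j => ζ j + ((p ^ M : ℕ) : ℤ) * v j)‖ = _
      rw [gpr (p ^ M) l (ec l c) _ w hq ζ v])
    (fun _ _ => rfl) (fun _ _ => rfl)
    (fun α => by
      have hd := hdec (s.image (yy p a₀ c)) (fun z => w (c + (p : ℤ) ^ a₀ * z) *
        ee (((∑ i : Fin l, α i * ((p : ℤ) ^ a₀ * z) ^ ((i : ℕ) + 1) : ℤ) : ℝ) /
          ((p ^ M : ℕ) : ℝ)))
      have e1 : ∀ t : Finset ℤ, InCl (p ^ a₀) c t →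
          Av (p ^ (l * m)) l (fun ζ => ‖G (p ^ M) (ec l c) t w
            (fun j => α j + (p : ℤ) ^ (M - a₀ * ((j : ℕ) + 1) - l * m) * ζ j)‖ ^ (2 * r)) =
          mom (p ^ (l * m)) (mc 0 l) r (t.image (yy p a₀ c)) (fun z => w (c + (p : ℤ) ^ a₀ * z) *
            ee (((∑ i : Fin l, α i * ((p : ℤ) ^ a₀ * z) ^ ((i : ℕ) + 1) : ℤ) : ℝ) /
              ((p ^ M : ℕ) : ℝ))) := by
        intro t ht
        unfold mom
        congr 1
        funext ζ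
        rw [local_G p l a₀ m M hp.pos c hM₂ t ht w α ζ]
      rw [e1 s hs]
      refine hd.trans (le_of_eq ?_)
      unfold Sq
      rw [← hr]
      congr 2
      refine Finset.sum_congr rfl fun i _ => ?_
      rw [e1 _ (incl_cl hs), cl_image p a₀ m hp.pos c i s hs])
  simp only [one_mul] at key
  refine le_trans key (mul_le_mul_of_nonneg_left ?_ hC)
  refine pow_le_pow_left₀ (Finset.sum_nonneg fun i _ => Real.rpow_nonneg
    (av_nonneg _ _ _ fun _ => pow_nonneg (norm_nonneg _) _) _) ?_ _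
  -- comparison of the square functions
  set F : ℕ → ℝ := fun c'' => (mom (p ^ M) (ec l c) r (cl (p ^ (a₀ + m)) (c'' : ℤ) s) w) ^
    (1 / (r : ℝ)) with hF
  have hPpos : (0 : ℤ) < ((p ^ (a₀ + m) : ℕ) : ℤ) := by
    exact_mod_cast pow_pos hp.pos _
  set f : ℕ → ℕ := fun i => ((c + (p : ℤ) ^ a₀ * (i : ℤ)) % ((p ^ (a₀ + m) : ℕ) : ℤ)).toNat
    with hf
  have hfc : ∀ i : ℕ, ((f i : ℕ) : ℤ) = (c + (p : ℤ) ^ a₀ * (i : ℤ)) % ((p ^ (a₀ + m) : ℕ) : ℤ) := by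
    intro i
    rw [hf]
    exact Int.toNat_of_nonneg (Int.emod_nonneg _ hPpos.ne')
  have hfm : ∀ i : ℕ, (c + (p : ℤ) ^ a₀ * (i : ℤ)) ≡ ((f i : ℕ) : ℤ)
      [ZMOD ((p ^ (a₀ + m) : ℕ) : ℤ)] := by
    intro i
    rw [hfc]
    exact (Int.mod_modEq _ _).symm
  have hinj : Set.InjOn f (Finset.range (p ^ m) : Set ℕ) := by
    intro i hi j hj hij
    have h1 : (c + (p : ℤ) ^ a₀ * (i : ℤ)) ≡ (c + (p : ℤ) ^ a₀ * (j : ℤ))
        [ZMOD ((p ^ (a₀ + m) : ℕ) : ℤ)] := by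
      have h2 := hfm i
      rw [hij] at h2
      exact h2.trans (hfm j).symm
    rw [Int.modEq_iff_dvd] at h1
    have e : c + (p : ℤ) ^ a₀ * (j : ℤ) - (c + (p : ℤ) ^ a₀ * (i : ℤ)) =
        (p : ℤ) ^ a₀ * ((j : ℤ) - i) := by ring
    rw [e] at h1
    push_cast at h1
    rw [pow_add] at h1
    have hpz : (p : ℤ) ^ a₀ ≠ 0 := by
      have := hp.pos
      positivity
    have h3 : (p : ℤ) ^ m ∣ (j : ℤ) - i := (mul_dvd_mul_iff_left hpz).mp h1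
    have hi' : i < p ^ m := Finset.mem_range.mp hi
    have hj' : j < p ^ m := Finset.mem_range.mp hj
    have hi'' : (i : ℤ) < (p : ℤ) ^ m := by exact_mod_cast hi'
    have hj'' : (j : ℤ) < (p : ℤ) ^ m := by exact_mod_cast hj'
    have h4 : (j : ℤ) - i = 0 := by
      refine Int.eq_zero_of_abs_lt_dvd h3 ?_
      rw [abs_lt]
      constructor
      · have : (0 : ℤ) ≤ j := Int.natCast_nonneg j
        linarith
      · have : (0 : ℤ) ≤ i := Int.natCast_nonneg i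
        linarith
    omega
  have e5 : ∑ i ∈ Finset.range (p ^ m), (Av (p ^ M) l fun α =>
      ‖G (p ^ M) (ec l c) (cl (p ^ (a₀ + m)) (c + (p : ℤ) ^ a₀ * (i : ℤ)) s) w α‖ ^ (2 * r)) ^
        (1 / (r : ℝ)) = ∑ i ∈ Finset.range (p ^ m), F (f i) := by
    refine Finset.sum_congr rfl fun i _ => ?_
    rw [hF]
    show (mom (p ^ M) (ec l c) r (cl (p ^ (a₀ + m)) (c + (p : ℤ) ^ a₀ * (i : ℤ)) s) w) ^ _ = _
    rw [cl_congr (p ^ (a₀ + m)) _ _ (hfm i) s]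
  rw [e5, ← Finset.sum_image hinj]
  unfold Sq
  refine Finset.sum_le_sum_of_subset_of_nonneg ?_ ?_
  · intro j hj
    obtain ⟨i, _, rfl⟩ := Finset.mem_image.mp hj
    rw [Finset.mem_range]
    have h1 : ((f i : ℕ) : ℤ) < ((p ^ (a₀ + m) : ℕ) : ℤ) := by
      rw [hfc]
      exact Int.emod_lt_of_pos _ hPpos
    exact_mod_cast h1
  · intro j _ _
    exact Real.rpow_nonneg (mom_nonneg _ _ _ _ _) _

end Pool.Agent.VM.H55
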